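import Pool.Agent.H98.CC.Upp

set_option autoImplicit false

/-!
# The order of magnitude of the clique chromatic number of `G(n,p)` around `n^{-2/5}`

For every `1/3 < α` and `β < 1/2` there are constants `0 < c` and `0 < C` such that for every
sequence `p` with `n^{-β} ≤ p ≤ n^{-α}` (for all large `n`), with probability tending to `1`,
`c f ≤ χ_c(G(n,p)) ≤ C f`, where `f(n,p) = (1/p) log (1 + n p^{5/2} / sqrt (log n))`.
With `β = 2/5 + ε` and `α = 2/5 - ε` this is Q1, for every `0 < ε < 1/15`.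
-/

namespace Pool.Agent.Results.MP_21207b_pr.CliqueChromaticOrder

open Filter Topology Pool.Agent.H98.CC

theorem result (α β : ℝ) (hα : 1 / 3 < α) (hβ : β < 1 / 2) :
    ∃ c C : ℝ, 0 < c ∧ 0 < C ∧ ∀ p : ℕ → ℝ,
      (∀ᶠ n : ℕ in atTop, (n : ℝ) ^ (-β) ≤ p n ∧ p n ≤ (n : ℝ) ^ (-α)) →
      Tendsto (fun n : ℕ => gnp n (p n) (fun G : SimpleGraph (Fin n) =>
        c * (1 / p n * Real.log (1 + n * p n ^ (5 / 2 : ℝ) / Real.sqrt (Real.log n))) ≤
          (cliqueChromaticNumber G : ℝ) ∧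
        (cliqueChromaticNumber G : ℝ) ≤
          C * (1 / p n * Real.log (1 + n * p n ^ (5 / 2 : ℝ) / Real.sqrt (Real.log n)))))
        atTop (𝓝 1) := by
  obtain ⟨δ, hδ0, hδ1, hδ2⟩ : ∃ δ : ℝ, 0 < δ ∧ δ ≤ 1 / 4 ∧ 1 + δ ≤ 3 * α := by
    refine ⟨min (1 / 4) (3 * α - 1), lt_min (by norm_num) (by linarith), min_le_left _ _, ?_⟩
    have := min_le_right (1 / 4) (3 * α - 1)
    linarith
  obtain ⟨j, hj⟩ := exists_nat_ge (38 / δ)
  have hjδ : 38 ≤ ((j + 1 : ℕ) : ℝ) * δ := by
    rw [div_le_iff₀ hδ0] at hj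
    push_cast
    nlinarith
  set m : ℕ := 8 * ((j + 1) * (3 * 300)) with hm
  set K : ℝ := 200 * (m + 4) with hK
  have hm0 : (0 : ℝ) ≤ m := by positivity
  have hK1 : 1 ≤ K := by rw [hK]; linarith
  refine ⟨1 / (100 * K), 250, by positivity, by norm_num, ?_⟩
  intro p hp
  have hbig : ∀ᶠ n : ℕ in atTop, Big K δ (1 - 2 * β) (Real.log n) :=
    (Real.tendsto_log_atTop.comp tendsto_natCast_atTop_atTop).eventually
      (ev_big K δ (1 - 2 * β) (by linarith) hδ0 (by linarith))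
  have hmain : ∀ᶠ n : ℕ in atTop, 1 - 12 / (n : ℝ) ≤ gnp n (p n)
      (fun G : SimpleGraph (Fin n) =>
        1 / (100 * K) * (1 / p n * Real.log (1 + n * p n ^ (5 / 2 : ℝ) /
          Real.sqrt (Real.log n))) ≤ (cliqueChromaticNumber G : ℝ) ∧
        (cliqueChromaticNumber G : ℝ) ≤
          250 * (1 / p n * Real.log (1 + n * p n ^ (5 / 2 : ℝ) / Real.sqrt (Real.log n)))) ∧
      gnp n (p n) (fun G : SimpleGraph (Fin n) =>
        1 / (100 * K) * (1 / p n * Real.log (1 + n * p n ^ (5 / 2 : ℝ) /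
          Real.sqrt (Real.log n))) ≤ (cliqueChromaticNumber G : ℝ) ∧
        (cliqueChromaticNumber G : ℝ) ≤
          250 * (1 / p n * Real.log (1 + n * p n ^ (5 / 2 : ℝ) / Real.sqrt (Real.log n)))) ≤ 1 := by
    filter_upwards [hp, hbig, eventually_ge_atTop 2] with n hn hb hn2
    obtain ⟨h1, h2⟩ := hn
    have hnr : (0 : ℝ) < n := by
      have : 0 < n := by omega
      exact_mod_cast this
    have hL0 : 0 < Real.log n := by
      have := hb.b1
      linarith
    have hp0 : 0 < p n := lt_of_lt_of_le (Real.rpow_pos_of_pos hnr _) h1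
    have hΛ : p n = Real.exp (-(-Real.log (p n))) := by rw [neg_neg, Real.exp_log hp0]
    have h3 : -β * Real.log n ≤ Real.log (p n) := by
      rw [← Real.log_rpow hnr]
      exact Real.log_le_log (Real.rpow_pos_of_pos hnr _) h1
    have h4 : Real.log (p n) ≤ -α * Real.log n := by
      rw [← Real.log_rpow hnr]
      exact Real.log_le_log hp0 h2
    have h5 : (1 + δ) * Real.log n ≤ 3 * (-Real.log (p n)) := by
      have := mul_le_mul_of_nonneg_right hδ2 hL0.le
      linarith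
    have h6 : 2 * (-Real.log (p n)) ≤ (1 - (1 - 2 * β)) * Real.log n := by linarith
    have h7 : 2 * (-Real.log (p n)) ≤ Real.log n := by
      have : β * Real.log n ≤ 1 / 2 * Real.log n := mul_le_mul_of_nonneg_right hβ.le hL0.le
      linarith
    have hp1 : p n ≤ 1 := by
      rw [hΛ]
      apply Real.exp_le_one_iff.mpr
      nlinarith
    have e1 := asy_lower n (p n) (-Real.log (p n)) (Real.log n) K δ (1 - 2 * β) (j + 1) m hn2 hΛ
      rfl h5 h7 hδ0 hδ1 hm hjδ (Nat.succ_pos j) hK hb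
    have e2 := asy_upper n (p n) (-Real.log (p n)) (Real.log n) K δ (1 - 2 * β) hn2 hΛ
      rfl h5 h6 hδ0 (by linarith) hK1 hb
    unfold ff at e1 e2
    refine ⟨?_, gnp_le_one hp0.le hp1 _⟩
    have e3 := gnp_not (n := n) (p := p n) (fun G : SimpleGraph (Fin n) =>
        1 / (100 * K) * (1 / p n * Real.log (1 + n * p n ^ (5 / 2 : ℝ) /
          Real.sqrt (Real.log n))) ≤ (cliqueChromaticNumber G : ℝ) ∧
        (cliqueChromaticNumber G : ℝ) ≤
          250 * (1 / p n * Real.log (1 + n * p n ^ (5 / 2 : ℝ) / Real.sqrt (Real.log n))))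
    have e4 := gnp_mono (n := n) hp0.le hp1 (P := fun G : SimpleGraph (Fin n) =>
        ¬ (1 / (100 * K) * (1 / p n * Real.log (1 + n * p n ^ (5 / 2 : ℝ) /
          Real.sqrt (Real.log n))) ≤ (cliqueChromaticNumber G : ℝ) ∧
        (cliqueChromaticNumber G : ℝ) ≤
          250 * (1 / p n * Real.log (1 + n * p n ^ (5 / 2 : ℝ) / Real.sqrt (Real.log n)))))
      (Q := fun G : SimpleGraph (Fin n) =>
        ¬ (1 / (100 * K) * (1 / p n * Real.log (1 + n * p n ^ (5 / 2 : ℝ) /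
          Real.sqrt (Real.log n))) ≤ (cliqueChromaticNumber G : ℝ)) ∨
        ¬ ((cliqueChromaticNumber G : ℝ) ≤
          250 * (1 / p n * Real.log (1 + n * p n ^ (5 / 2 : ℝ) / Real.sqrt (Real.log n)))))
      (fun G h => not_and_or.mp h)
    have e5 := gnp_or (n := n) hp0.le hp1 (fun G : SimpleGraph (Fin n) =>
        ¬ (1 / (100 * K) * (1 / p n * Real.log (1 + n * p n ^ (5 / 2 : ℝ) /
          Real.sqrt (Real.log n))) ≤ (cliqueChromaticNumber G : ℝ)))
      (fun G : SimpleGraph (Fin n) => ¬ ((cliqueChromaticNumber G : ℝ) ≤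
          250 * (1 / p n * Real.log (1 + n * p n ^ (5 / 2 : ℝ) / Real.sqrt (Real.log n)))))
    have e6 : (12 : ℝ) / n = 8 / n + 4 / n := by ring
    rw [e6]
    linarith
  have hlim : Tendsto (fun n : ℕ => 1 - 12 / (n : ℝ)) atTop (𝓝 1) := by
    have h1 : Tendsto (fun n : ℕ => (12 : ℝ) / (n : ℝ)) atTop (𝓝 0) :=
      tendsto_const_div_atTop_nhds_zero_nat 12
    have h2 := h1.const_sub 1
    rwa [sub_zero] at h2
  exact tendsto_of_tendsto_of_tendsto_of_le_of_le' hlim tendsto_const_nhds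
    (hmain.mono fun n h => h.1) (hmain.mono fun n h => h.2)

end Pool.Agent.Results.MP_21207b_pr.CliqueChromaticOrder
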