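import Pool.Agent.H98.CD.Low2
import Pool.Agent.H98.CC.Asy

set_option autoImplicit false

/-!
# The order of magnitude of the clique chromatic number of `G(n,p)` around `n^{-1/3}`

There are constants `0 < c` and `0 < C` such that for every sequence `p` with
`n^{-1/3-1/300} ≤ p ≤ n^{-1/3+1/1000}` (for all large `n`), with probability tending to `1`,
`c f ≤ χ_c(G(n,p)) ≤ C f`, where
`f(n,p) = (1/p) (max (log n / 3 - n p^3) 0 + log (log n + n p^3))`.
This is Q2 (for every `0 < ε ≤ 1/1000`; beyond `n^{-1/3+ε}` the order `log n / p` is known).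
-/

namespace Pool.Agent.Results.MP_21207b_pr.CliqueChromaticThird

open Filter Topology Pool.Agent.H98.CC Pool.Agent.H98.CD

theorem result :
    ∃ c C : ℝ, 0 < c ∧ 0 < C ∧ ∀ p : ℕ → ℝ,
      (∀ᶠ n : ℕ in atTop, (n : ℝ) ^ (-(1 / 3 + 1 / 300) : ℝ) ≤ p n ∧
        p n ≤ (n : ℝ) ^ (-(1 / 3 - 1 / 1000) : ℝ)) →
      Tendsto (fun n : ℕ => gnp n (p n) (fun G : SimpleGraph (Fin n) =>
        c * (1 / p n * (max (Real.log n / 3 - n * p n ^ 3) 0 +
          Real.log (Real.log n + n * p n ^ 3))) ≤ (cliqueChromaticNumber G : ℝ) ∧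
        (cliqueChromaticNumber G : ℝ) ≤
          C * (1 / p n * (max (Real.log n / 3 - n * p n ^ 3) 0 +
          Real.log (Real.log n + n * p n ^ 3)))))
        atTop (𝓝 1) := by
  refine ⟨1 / 41000, 12, by norm_num, by norm_num, ?_⟩
  intro p hp
  have hlog : Tendsto (fun n : ℕ => Real.log (n : ℝ)) atTop atTop :=
    Real.tendsto_log_atTop.comp tendsto_natCast_atTop_atTop
  have hb1 : ∀ᶠ n : ℕ in atTop, (10 : ℝ) ^ 24 ≤ Real.log n := hlog.eventually_ge_atTop _
  have hb2 : ∀ᶠ n : ℕ in atTop, Real.log n ≤ Real.exp (Real.log n / 1000) := by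
    have h1 := hlog.eventually (ev_exp (1 / 1000) 1 1 (by norm_num))
    filter_upwards [h1] with n hn
    rw [one_mul, pow_one] at hn
    have e : 1 / 1000 * Real.log (n : ℝ) = Real.log n / 1000 := by ring
    rwa [e] at hn
  have hmain : ∀ᶠ n : ℕ in atTop, 1 - 12 / (n : ℝ) ≤ gnp n (p n)
      (fun G : SimpleGraph (Fin n) => 1 / 41000 * ff2 n (p n) ≤ (cliqueChromaticNumber G : ℝ) ∧
        (cliqueChromaticNumber G : ℝ) ≤ 12 * ff2 n (p n)) ∧
      gnp n (p n) (fun G : SimpleGraph (Fin n) =>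
        1 / 41000 * ff2 n (p n) ≤ (cliqueChromaticNumber G : ℝ) ∧
        (cliqueChromaticNumber G : ℝ) ≤ 12 * ff2 n (p n)) ≤ 1 := by
    filter_upwards [hp, hb1, hb2, eventually_ge_atTop 5] with n hn h24 hexp hn5
    obtain ⟨h1, h2⟩ := hn
    have hnr : (0 : ℝ) < n := by
      have : 0 < n := by omega
      exact_mod_cast this
    have hL0 : 0 < Real.log n := lt_of_lt_of_le (by norm_num) h24
    have hp0 : 0 < p n := lt_of_lt_of_le (Real.rpow_pos_of_pos hnr _) h1
    have hΛ : p n = Real.exp (-(-Real.log (p n))) := by rw [neg_neg, Real.exp_log hp0]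
    have h3 : -(1 / 3 + 1 / 300) * Real.log n ≤ Real.log (p n) := by
      rw [← Real.log_rpow hnr]
      exact Real.log_le_log (Real.rpow_pos_of_pos hnr _) h1
    have h4 : Real.log (p n) ≤ -(1 / 3 - 1 / 1000) * Real.log n := by
      rw [← Real.log_rpow hnr]
      exact Real.log_le_log hp0 h2
    have hp1 : p n ≤ 1 := by
      rw [hΛ]
      apply Real.exp_le_one_iff.mpr
      linarith
    have e1 := asy_low2 n (p n) (-Real.log (p n)) (Real.log n) hn5 hΛ rfl h24 hexp
      (by linarith) (by linarith)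
    have e2 := asy_upper2 n (p n) (-Real.log (p n)) (Real.log n) hn5 hΛ rfl
      (le_trans (by norm_num) h24) hexp (by linarith) (by linarith)
    refine ⟨?_, gnp_le_one hp0.le hp1 _⟩
    have e3 := gnp_not (n := n) (p := p n) (fun G : SimpleGraph (Fin n) =>
      1 / 41000 * ff2 n (p n) ≤ (cliqueChromaticNumber G : ℝ) ∧
        (cliqueChromaticNumber G : ℝ) ≤ 12 * ff2 n (p n))
    have e4 := gnp_mono (n := n) hp0.le hp1 (P := fun G : SimpleGraph (Fin n) =>
        ¬ (1 / 41000 * ff2 n (p n) ≤ (cliqueChromaticNumber G : ℝ) ∧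
        (cliqueChromaticNumber G : ℝ) ≤ 12 * ff2 n (p n)))
      (Q := fun G : SimpleGraph (Fin n) =>
        ¬ (1 / 41000 * ff2 n (p n) ≤ (cliqueChromaticNumber G : ℝ)) ∨
        ¬ ((cliqueChromaticNumber G : ℝ) ≤ 12 * ff2 n (p n)))
      (fun G h => not_and_or.mp h)
    have e5 := gnp_or (n := n) hp0.le hp1 (fun G : SimpleGraph (Fin n) =>
        ¬ (1 / 41000 * ff2 n (p n) ≤ (cliqueChromaticNumber G : ℝ)))
      (fun G : SimpleGraph (Fin n) => ¬ ((cliqueChromaticNumber G : ℝ) ≤ 12 * ff2 n (p n)))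
    have e6 : (12 : ℝ) / n = 9 / n + 3 / n := by ring
    rw [e6]
    linarith
  unfold ff2 at hmain
  have hlim : Tendsto (fun n : ℕ => 1 - 12 / (n : ℝ)) atTop (𝓝 1) := by
    have h1 : Tendsto (fun n : ℕ => (12 : ℝ) / (n : ℝ)) atTop (𝓝 0) :=
      tendsto_const_div_atTop_nhds_zero_nat 12
    have h2 := h1.const_sub 1
    rwa [sub_zero] at h2
  exact tendsto_of_tendsto_of_tendsto_of_le_of_le' hlim tendsto_const_nhds
    (hmain.mono fun n h => h.1) (hmain.mono fun n h => h.2)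

end Pool.Agent.Results.MP_21207b_pr.CliqueChromaticThird
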